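import Pool.Agent.Lib.L8.PZ.Stm
import Pool.Agent.Lib.L8.PM.Main
import Pool.Agent.Lib.L8.MainW
import Pool.Agent.Lib.L8.W5
import Pool.Agent.Lib.L8.W6

/-!
# The universal density theorem: the equivalence of the two forms of the statement
-/

namespace Pool.Agent.Lib.L8.PZ

open MeasureTheory Matrix NumberField IsDedekindDomain Pool.Agent.Lib.L8.PM

noncomputable section

/-! ## The operators -/

section ops

variable {H : Type} [Group H]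

theorem nrm_le {Γ : Subgroup H} {f : H → ℂ} {B : ENNReal} (h : ∀ R : Finset H, (∀ x ∈ R, ∀ y ∈ R, x * y⁻¹ ∈ Γ → x = y) → ∑ x ∈ R, ‖f x‖ₑ ^ 2 ≤ B) : nrm Γ f ≤ B := by
  unfold nrm
  exact iSup_le fun R => iSup_le fun h1 => h R h1

theorem le_nrm {Γ : Subgroup H} (f : H → ℂ) {R : Finset H} (h2 : ∀ x ∈ R, ∀ y ∈ R, x * y⁻¹ ∈ Γ → x = y) : ∑ x ∈ R, ‖f x‖ₑ ^ 2 ≤ nrm Γ f := by
  unfold nrm
  exact le_iSup_of_le R (le_iSup_of_le h2 le_rfl)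

theorem sum_ofReal (R : Finset H) (f : H → ℂ) : ∑ x ∈ R, ‖f x‖ₑ ^ 2 = ENNReal.ofReal (∑ x ∈ R, ‖f x‖ ^ 2) := by
  rw [ENNReal.ofReal_sum_of_nonneg fun x _ => by positivity]
  exact Finset.sum_congr rfl fun x _ => by rw [ENNReal.ofReal_pow (norm_nonneg _), ofReal_norm]

/-- The two forms of the condition on the operator. -/
theorem heOp_of {Γ : Subgroup H} {m : ℕ} {w : Fin m → H} {e : Fin m → ℂ} {Λ : ℝ} (h : HeOp Γ w e Λ) : L8.HeOp Γ Set.univ w e Λ where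
  mem := fun _ => Set.mem_univ _
  inv := fun f hf γ hγ x _ => h.inv f hf γ hγ x
  nrm := by
    intro f hf B hB R hR hR'
    have hB0 : 0 ≤ B := by
      have h1 := hB ∅ (by simp) (by simp)
      rwa [Finset.sum_empty] at h1
    have h1 : nrm Γ f ≤ ENNReal.ofReal B := nrm_le fun R h2 => by
      rw [sum_ofReal]
      exact ENNReal.ofReal_le_ofReal (hB R (fun x _ => Set.mem_univ x) h2)
    have h2 := (le_nrm (fun x => ∑ a, e a * f (w a * x)) hR').trans ((h.norm f hf).trans (mul_le_mul_right h1 _))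
    rw [sum_ofReal, ← ENNReal.ofReal_mul (sq_nonneg _)] at h2
    exact (ENNReal.ofReal_le_ofReal_iff (mul_nonneg (sq_nonneg _) hB0)).1 h2

end ops

variable {ι M N : Type} [Fintype ι] [DecidableEq ι] [AddCommGroup M] [Module ℚ M] [AddCommGroup N] [Module ℚ N]
  {P : RootPairing ι ℚ M N} [P.IsCrystallographic] {b : P.Base} {K L : Type} [Field K] [NumberField K] [Field L] [NumberField L] [Algebra K L] (Q : QS b K L)

theorem pw_inO (x : L) : InO (⊤ : Ideal (𝓞 K)) x ↔ L1S.InI (⊤ : Ideal (𝓞 L)) x := inO_top x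

theorem pw_sub {X : Matrix (b.support ⊕ ι) (b.support ⊕ ι) L} : (∀ r c, InO (⊤ : Ideal (𝓞 K)) ((X - 1) r c)) ↔ L8.IntM b X := by
  have h1 : L8.IntM b (1 : Matrix (b.support ⊕ ι) (b.support ⊕ ι) L) := L8.IntM.one
  constructor
  · intro h r c
    obtain ⟨x, -, hx⟩ := (pw_inO (K := K) _).1 (h r c)
    obtain ⟨y, -, hy⟩ := h1 r c
    refine ⟨x + y, Submodule.mem_top, ?_⟩
    have e : ((x + y : 𝓞 L) : L) = (x : L) + (y : L) := map_add (algebraMap (𝓞 L) L) _ _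
    rw [e, hx, hy, Matrix.sub_apply, sub_add_cancel]
  · intro h r c
    obtain ⟨x, -, hx⟩ := h r c
    obtain ⟨y, -, hy⟩ := h1 r c
    refine (pw_inO (K := K) _).2 ⟨x - y, Submodule.mem_top, ?_⟩
    have e : ((x - y : 𝓞 L) : L) = (x : L) - (y : L) := map_sub (algebraMap (𝓞 L) L) _ _
    rw [e, hx, hy, Matrix.sub_apply]

variable [P.IsRootSystem] [P.IsReduced] [P.IsIrreducible]

theorem go_eq : (Prin (⊤ : Ideal (𝓞 K)) (GL' b L)).subgroupOf (GQ Q) = L8.GI (old Q) := by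
  ext g
  rw [Subgroup.mem_subgroupOf]
  constructor
  · rintro ⟨h1, h2⟩
    exact ⟨pw_sub.1 h1, pw_sub.1 h2⟩
  · rintro ⟨h1, h2⟩
    exact ⟨pw_sub.2 h1, pw_sub.2 h2⟩

theorem mi_eq {i j : b.support} {w : Equiv.Perm ι} (hO : L1S.OppW b i j w) (X : Matrix (b.support ⊕ ι) (b.support ⊕ ι) L) : Mi b (L8.uc2_eq hO) X = L1S.Dm b i w X := by
  unfold Mi L1S.Dm
  congr 1
  ext β β'
  show X (Sum.inr (P.reflectionPerm (P.reflectionPerm (w β.1) (w β.1)) (P.reflectionPerm (w β.1) (w β.1)))) (Sum.inr β'.1) = X (Sum.inr (w β.1)) (Sum.inr β'.1)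
  rw [L1S.d2_neg_neg]

/-- The minors for different bijections differ by a sign. -/
theorem mi_sign {i j : b.support} {w : Equiv.Perm ι} (hO : L1S.OppW b i j w) (s : Phi b i ≃ Phi b j) (X : Matrix (b.support ⊕ ι) (b.support ⊕ ι) L) :
    ∃ ε : ℤˣ, Mi b s X = ((ε : ℤ) : L) * L1S.Dm b i w X := by
  let π : Equiv.Perm (Phi b i) := s.trans (L8.uc2_eq hO).symm
  refine ⟨Equiv.Perm.sign π, ?_⟩
  have e : ∀ β, (L8.uc2_eq hO) (π β) = s β := fun β => (L8.uc2_eq hO).apply_symm_apply (s β)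
  have e1 : (X.submatrix (fun β : Phi b i => Sum.inr (P.reflectionPerm (s β).1 (s β).1)) fun β : Phi b i => Sum.inr β.1) =
      (X.submatrix (fun β : Phi b i => Sum.inr (P.reflectionPerm (L8.uc2_eq hO β).1 (L8.uc2_eq hO β).1)) fun β : Phi b i => Sum.inr β.1).submatrix π id := by
    rw [Matrix.submatrix_submatrix]
    refine congrArg (fun f => X.submatrix f fun β : Phi b i => Sum.inr β.1) (funext fun β => ?_)
    rw [Function.comp_apply, e]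
  rw [← mi_eq hO]
  unfold Mi
  rw [e1]
  exact Matrix.det_permute π _

theorem pw_norm {i j : b.support} {w : Equiv.Perm ι} (hO : L1S.OppW b i j w) (s : Phi b i ≃ Phi b j) (X : Matrix (b.support ⊕ ι) (b.support ⊕ ι) L) :
    mixedEmbedding.norm (mixedEmbedding L (Mi b s X)) = mixedEmbedding.norm (mixedEmbedding L (L1S.Dm b i w X)) ∧ (Mi b s X ≠ 0 → L1S.Dm b i w X ≠ 0) := by
  obtain ⟨ε, h⟩ := mi_sign hO s X
  constructor
  · rw [h, map_mul, map_mul]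
    have e1 : mixedEmbedding.norm (mixedEmbedding L ((ε : ℤ) : L)) = 1 := by
      rcases Int.units_eq_one_or ε with rfl | rfl
      · simp
      · have h2 := mixedEmbedding.norm_unit (K := L) (-1)
        have e2 : ((((-1 : ℤˣ) : ℤ) : L)) = algebraMap (𝓞 L) L (((-1 : (𝓞 L)ˣ) : 𝓞 L)) := by
          rw [Units.val_neg, Units.val_one, Units.val_neg, Units.val_one, map_neg, map_one, Int.cast_neg, Int.cast_one]
        rw [e2]
        exact h2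
    rw [e1, one_mul]
  · intro h1 h2
    rw [h, h2, mul_zero] at h1
    exact h1 rfl

theorem fd_of {H : Subgroup (L1S.GK b L)} {Γ : Subgroup H} {h : H} {D : Set (L1S.UHR H)} {ν : Measure (L1S.UHR H)} (hD : IsFundamentalDomain (L1S.imUh H Γ h) D ν) : IsFundamentalDomain (L1S.imU H (L1S.cjG Γ h)) D ν := by
  rwa [← L1S.imUh_eq]

theorem gap_of {Γ : Subgroup (L1S.HQ (old Q))} {m : ℕ} {w' : Fin m → L1S.HQ (old Q)} {h : L1S.HQ (old Q)} {C : ℝ} {a : ι → (mixedEmbedding.mixedSpace L)ˣ} {Rb : b.support → ℝ}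
    (hg : ∀ Y ∈ Quo Γ w' h, Gap b (mixedEmbedding L) (nrL L) (eL L) Y C (fun i => ∏ β ∈ Phi b i, nm (nrL L) (eL L) (a β : mixedEmbedding.mixedSpace L)) Rb) : L8.GapQ (old Q) Γ w' h C Rb (L8.Ea b a) := by
  intro i j w₀ hw₀ hO k k' γ hγ
  have h1 : γ.1.1.1 ∈ Quo Γ w' h := ⟨k, k', w' k * h * γ * (w' k' * h)⁻¹, hγ, by
    have e2 : γ = (w' k * h)⁻¹ * (w' k * h * γ * (w' k' * h)⁻¹) * (w' k' * h) := by group
    exact congrArg (fun y : L1S.HQ (old Q) => y.1.1.1) e2⟩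
  have h2 := hg _ h1 i j ⟨w₀, hw₀, hO⟩ (L8.uc2_eq hO)
  rw [mi_eq hO, nm_eq] at h2
  rcases h2 with h2 | h2
  · exact Or.inl h2
  · refine Or.inr (h2.trans_le (le_of_eq ?_))
    simp only [nm_eq]
    rfl

theorem aue_of {Γ : Subgroup (L1S.HQ (old Q))} {μ ρ : Measure (L1S.HRt (L1S.HQ (old Q)))} {D : Set (L1S.HRt (L1S.HQ (old Q)))} {φ w F : L1S.HRt (L1S.HQ (old Q)) → ℂ} {c κ : ℂ}
    (h : Aut (Γ.map (L1S.embH (L1S.HQ (old Q)))) μ ρ D φ w F c κ) : L1S.AuE (L1S.HQ (old Q)) Γ μ D φ c F := ⟨h.cont, h.inv, h.l2, h.eig⟩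

theorem cv_of {Γ : Subgroup (L1S.HQ (old Q))} {μ ρ : Measure (L1S.HRt (L1S.HQ (old Q)))} {D : Set (L1S.HRt (L1S.HQ (old Q)))} {φ w F : L1S.HRt (L1S.HQ (old Q)) → ℂ} {c κ : ℂ}
    (h : Aut (Γ.map (L1S.embH (L1S.HQ (old Q)))) μ ρ D φ w F c κ) : ∀ y, L8.Cv ρ w F y = κ * F y := h.cv

theorem wn_of {Γ : Subgroup (L1S.HQ (old Q))} {ν : Measure (L1S.UHR (L1S.HQ (old Q)))} {θ : b.support → (mixedEmbedding.mixedSpace L →ₗ[ℝ] ℝ)} {m : ℕ} {w : Fin m → L1S.HQ (old Q)} {e : Fin m → ℂ} {h : L1S.HQ (old Q)} {Λ : ℝ}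
    (hW : WhOp (L1S.UHR (L1S.HQ (old Q))) (L1S.embH (L1S.HQ (old Q))) ν (L1S.psiH (L1S.HQ (old Q)) θ) Γ w e h Λ) : L8.WnH (L1S.HQ (old Q)) Γ θ ν w e h Λ := by
  intro f hf hfu
  have e0 : ∀ x, covolume ((Cj (Γ.map (L1S.embH (L1S.HQ (old Q)))) (L1S.embH (L1S.HQ (old Q)) x)).subgroupOf (L1S.UHR (L1S.HQ (old Q)))) (L1S.UHR (L1S.HQ (old Q))) ν = L8.cvH (L1S.HQ (old Q)) Γ ν x := fun x => by
    unfold L8.cvH
    rw [← L1S.imUh_eq]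
    rfl
  have h1 := hW f hf fun u hu x => hfu ⟨u, hu⟩ x
  rw [e0] at h1
  refine h1.trans (mul_le_mul_right ?_ _)
  unfold wnrm L8.wnH
  refine iSup_le fun R => iSup_le fun hR => le_iSup_of_le R (le_iSup_of_le (fun x hx y hy hxy => hR x hx y hy ?_) (le_of_eq ?_))
  · obtain ⟨u, hu⟩ := hxy
    exact ⟨u, u.2, hu⟩
  · exact Finset.sum_congr rfl fun x _ => by rw [e0]

/-- **The density theorem**. -/
theorem est [IsGalois K L] :
    EstCl K (h0 b) (GQ Q) (mixedEmbedding L) (fun i => (Sum.inl i, Sum.inr (P.reflectionPerm i i))) (sp Q) (nrL L) (eL L) (fun i => (Phi b i).card) (Adm b K (mixedEmbedding L) (nrL L) (eL L) (plL K L)) := by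
  intro m1 hm1 m2 hm2 Ω S₀ hΩ hS₀
  obtain rfl : m1 = borel _ := hm1.measurable_eq
  obtain rfl : m2 = borel _ := hm2.measurable_eq
  obtain ⟨C, hC⟩ := L8.statementW (old Q) Ω S₀ hΩ hS₀
  refine ⟨C, ?_⟩
  rintro Γ hΓ hrel m w' e' Λf h θ hθ t x d ht ⟨u, ω, hω, hx⟩ μ ρ hμ w S Λ B φ δ ⟨hfin, hcpt, hsupp, hmeas, hbdd, hnorm, hnonneg, hminors, hcont, htsupp, hpos, hnear⟩ X
    ⟨a, rfl, hpl, hgap, rfl⟩ ν hν hT D D₀ D₁ hD hD₀ hD₁ M' F c' κ hF horth t' ht'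
  rw [go_eq] at hΓ hrel hD₀
  have hθ' : ∀ u ∈ L1S.imU (L1S.HQ (old Q)) (L1S.cjG Γ h), L1S.psiH (L1S.HQ (old Q)) θ u = 1 := fun u hu => hθ.2 u (by
    rw [← L1S.imUh_eq] at hu
    exact hu)
  -- the entries of `t` are units
  have hu : ∀ β, a β * (t⁻¹).1.1.1 (Sum.inr β) (Sum.inr β) = 1 := by
    intro β
    have h1 : t.1.1.1 * (t⁻¹).1.1.1 = 1 := t.1.1.mul_inv
    have h2 := congrFun (congrFun h1 (Sum.inr β)) (Sum.inr β)
    rw [ht, Matrix.diagonal_mul, Matrix.one_apply_eq] at h2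
    exact h2
  let a' : ι → (mixedEmbedding.mixedSpace L)ˣ := fun β => Units.mkOfMulEqOne _ _ (hu β)
  have k1 := hC Γ hΓ hrel m w' e' Λf h θ hθ.1 hθ' t a' ht x ⟨u, ω, hω, by rw [hx]; rfl⟩
  have k2 := @k1 μ ρ hμ w S Λ (@L8.CvD.mk _ _ _ (borel _) _ _ _ _ _ hfin hmeas hbdd hcpt hsupp hnorm) B hnonneg hminors φ hcont htsupp δ hpos hpl hnear (gap_of (a := a') Q hgap)
  have key := @k2 ν hν (hT.imp heOp_of (wn_of Q)) D₀ hD₀ D₁ (fd_of hD₁) D hD M' F c' κ (fun l => aue_of Q (hF l)) (fun l => cv_of Q (hF l)) horth t' ht'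
  refine key.trans (le_of_eq ?_)
  simp only [nm_eq]
  rfl

theorem pw_cg {𝔫 : Ideal (𝓞 K)} {X : Matrix (b.support ⊕ ι) (b.support ⊕ ι) L} (h : Cong 𝔫 X) : L8.Cg b 𝔫 X := h

theorem pw_prin {𝔫 : Ideal (𝓞 K)} {X : Matrix (b.support ⊕ ι) (b.support ⊕ ι) L} (h : ∀ r c, InO 𝔫 ((X - 1) r c)) : L8.Cg b 𝔫 X ∧ L8.IntM b X := by
  have h1 : ∀ r c, InO (⊤ : Ideal (𝓞 K)) ((X - 1) r c) := fun r c => (h r c).top
  refine ⟨⟨⊤, top_sup_eq _, fun y _ r c => ?_⟩, pw_sub.1 h1⟩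
  obtain ⟨z, hz, e⟩ := h r c
  refine ⟨algebraMap (𝓞 K) (𝓞 L) y * z, Ideal.mul_mem_left _ _ hz, ?_⟩
  rw [← e]
  exact map_mul (algebraMap (𝓞 L) L) _ _

theorem pw_mc {𝔟 : Ideal (𝓞 K)} {i : b.support} {X : Matrix (b.support ⊕ ι) (b.support ⊕ ι) L} (h : MC b 𝔟 i X) : L8.MCi b 𝔟 i X := fun f y hy => (pw_inO (K := K) _).1 (h f y hy)

theorem pw_mr {𝔟 : Ideal (𝓞 K)} {i : b.support} {X : Matrix (b.support ⊕ ι) (b.support ⊕ ι) L} (h : MR b 𝔟 i X) : L8.MRi b 𝔟 i X := fun f y hy => (pw_inO (K := K) _).1 (h f y hy)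

/-- **The lower bound of the minors**. -/
theorem low : Low b (K := K) (fun z => nm (nrL L) (eL L) (mixedEmbedding L z)) (GL' b L) (GQ Q) := by
  rintro 𝔫 𝔟 𝔟' h0 h1 h2 x y γ hx hx' hy hy' ⟨hγ, hγ'⟩ i j ⟨w, hw, hO⟩ hmr hmc s hD
  obtain ⟨g1, g2⟩ := pw_prin hγ
  obtain ⟨g3, -⟩ := pw_prin hγ'
  have e1 : (x⁻¹ * γ * y).1.1.1 = x⁻¹.1.1.1 * (γ.1.1.1 * y.1.1.1) := by
    have e2 : (x⁻¹ * γ * y).1.1.1 = x⁻¹.1.1.1 * γ.1.1.1 * y.1.1.1 := rfl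
    rw [e2, Matrix.mul_assoc]
  have e3 : (x⁻¹ * γ * y)⁻¹.1.1.1 = y⁻¹.1.1.1 * (γ⁻¹.1.1.1 * x.1.1.1) := by
    have e2 : (x⁻¹ * γ * y)⁻¹ = y⁻¹ * γ⁻¹ * x := by group
    rw [e2]
    have e4 : (y⁻¹ * γ⁻¹ * x).1.1.1 = y⁻¹.1.1.1 * γ⁻¹.1.1.1 * x.1.1.1 := rfl
    rw [e4, Matrix.mul_assoc]
  have c1 : L8.Cg b 𝔫 (x⁻¹ * γ * y).1.1.1 := by
    rw [e1]
    exact (pw_cg hx').mul (g1.mul (pw_cg hy))
  have c2 : L8.Cg b 𝔫 (x⁻¹ * γ * y)⁻¹.1.1.1 := by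
    rw [e3]
    exact (pw_cg hy').mul (g3.mul (pw_cg hx))
  have hb : ∀ z ∈ 𝔟 * 𝔟', L1S.InI (⊤ : Ideal (𝓞 L)) (algebraMap K L (z : K) * L1S.Dm b i w (x⁻¹ * γ * y).1.1.1) := by
    rw [e1]
    exact L8.w5_dm hO (pw_mr hmr) (L8.MCi.mul_int g2 (pw_mc hmc))
  obtain ⟨n1, n2⟩ := pw_norm hO s (x⁻¹ * γ * y).1.1.1
  obtain ⟨k1, k2⟩ := L8.w6_low (γ := (x⁻¹ * γ * y).1) h0 (mul_ne_zero h1 h2) c1 c2 hO hb (n2 hD)
  simp only [nm_eq]
  rw [n1]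
  refine ⟨k1, fun l T hT => ?_⟩
  have k3 := k2 l T hT
  have hP : 0 ≤ L1S.SM b i l + L1S.SM b j l := add_nonneg (L1S.d7_SM_nonneg i l) (L1S.d7_SM_nonneg j l)
  have e4 : (Ideal.absNorm 𝔫 : ℝ) ^ S2 b i j (mc b l) (mc b l) = (Ideal.absNorm 𝔫 : ℝ) ^ (L1S.SM b i l + L1S.SM b j l).toNat := by
    rw [← zpow_natCast, Int.toNat_of_nonneg hP]
    rfl
  rw [e4]
  exact k3

/-- **The universal density theorem**. -/
theorem universal [IsGalois K L] : Universal Q := ⟨est Q, low Q⟩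

end

end Pool.Agent.Lib.L8.PZ
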