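import Pool.Agent.Lib.L8.PM.Stm

/-!
# The universal density theorem for the globally generic spectrum of every quasi-split group: the statement

The notation is that of `Lib/L8/PM/Stm.lean` (the hybrid density theorem): `P` is an irreducible reduced crystallographic root system with base `b`, `L / K` a finite Galois extension of number fields and `Q : QS b K L` an
action of the Galois group on the Dynkin diagram of `P`; `G(K)` is the image in the adjoint group of the `K`-points of the simply connected quasi-split group of type `(P, Q)`, and `G` is its closure in `GL(L ⊗ ℝ)`.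

`Γ` is an arbitrary arithmetic group: a subgroup of finite index of the group `G(𝓞)` of the integral elements of `G(K)`. The Hecke operators are ALL the operators `(T f)(h) = ∑_a e_a f(w_a h)`, `w_a ∈ G(K)`, of the functions on
`Γ \ G(K)`, at all finite places at once. By strong approximation `Γ \ G(K)` is `K_f \ G(𝔸_f)` (`Γ` a congruence group, `K_f` its closure in the group `G(𝔸_f)` over the finite adeles, or rather in the image of the simply connected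
group) and the `T` are the elements of the Hecke algebra of `K_f`. `Λ_f` bounds the norm of `T` on `ℓ²(Γ \ G(K))` (`HeOp`), so `|t| ≤ Λ_f` for the eigenvalues `t` of `T` on the forms which are tempered at the finite places; or `Λ_f`
bounds only the Whittaker norm of `T` (`WhOp`). The Whittaker coefficients are taken at all points `(h, x)`, `h ∈ G(K)`, `x ∈ U t Ω`, `t` in the torus. The only condition is that the minors of the elements of `h⁻¹ w_a⁻¹ Γ w_b h` which are not zero are large (`Gap`); for congruence groups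
this is made explicit by `Low`.
-/

namespace Pool.Agent.Lib.L8.PZ

open MeasureTheory Matrix NumberField IsDedekindDomain Pool.Agent.Lib.L8.PM

noncomputable section

/-! ## 1. Groups -/

section groups

variable {G : Type} [Group G]

/-- The square of the norm of `f` in `ℓ²(Γ \ G)`: the supremum of the sums `∑ |f(x)|²` over the finite sets of elements `x` of different classes `Γ x`. -/
def nrm (Γ : Subgroup G) (f : G → ℂ) : ENNReal := ⨆ (R : Finset G) (_ : ∀ x ∈ R, ∀ y ∈ R, x * y⁻¹ ∈ Γ → x = y), ∑ x ∈ R, ‖f x‖ₑ ^ 2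

/-- **Hecke operators**: `(T f)(x) = ∑_a e_a f(w_a x)` maps the functions on `Γ \ G` to functions on `Γ \ G`, and its norm on `ℓ²(Γ \ G)` is at most `Λ`. -/
structure HeOp (Γ : Subgroup G) {m : ℕ} (w : Fin m → G) (e : Fin m → ℂ) (Λ : ℝ) : Prop where
  inv : ∀ f : G → ℂ, (∀ γ ∈ Γ, ∀ x, f (γ * x) = f x) → ∀ γ ∈ Γ, ∀ x, ∑ a, e a * f (w a * (γ * x)) = ∑ a, e a * f (w a * x)
  norm : ∀ f : G → ℂ, (∀ γ ∈ Γ, ∀ x, f (γ * x) = f x) → nrm Γ (fun x => ∑ a, e a * f (w a * x)) ≤ ENNReal.ofReal (Λ ^ 2) * nrm Γ f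

/-- The group `h⁻¹ Γ h`. -/
def Cj (Γ : Subgroup G) (h : G) : Subgroup G := Γ.comap (MulAut.conj h).toMonoidHom

section whittaker

variable {H : Type} [Group H] (U : Subgroup G) [MeasurableSpace U] (τ : H →* G) (ν : Measure U)

/-- The square of the norm of `f` on `Γ \ H / (U ∩ H)`: the supremum of the sums `∑ |f(x)|² vol(x⁻¹ Γ x ∩ U \ U)` over the finite sets of elements `x` of different double cosets `Γ x (U ∩ H)` (`τ : H → G` the embedding). -/
def wnrm (Γ : Subgroup H) (f : H → ℂ) : ENNReal :=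
  ⨆ (R : Finset H) (_ : ∀ x ∈ R, ∀ y ∈ R, (∃ u, τ u ∈ U ∧ x * u * y⁻¹ ∈ Γ) → x = y), ∑ x ∈ R, ‖f x‖ₑ ^ 2 * covolume ((Cj (Γ.map τ) (τ x)).subgroupOf U) U ν

/-- **The Whittaker norm** of `T` at the point `h` is at most `Λ`: `vol(h⁻¹ Γ h ∩ U \ U) |(T f)(h)|² ≤ Λ² |f|²` for the functions with `f(γ x u) = ψ(u) f(x)`, `γ ∈ Γ`, `u ∈ U ∩ H`; `|f|²` is the sum of `|f(x)|² vol(x⁻¹ Γ x ∩ U \ U)`
over `Γ \ H / (U ∩ H)`. -/
def WhOp (ψ : U → ℂ) (Γ : Subgroup H) {m : ℕ} (w : Fin m → H) (e : Fin m → ℂ) (h : H) (Λ : ℝ) : Prop :=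
  ∀ f : H → ℂ, (∀ γ ∈ Γ, ∀ x, f (γ * x) = f x) → (∀ u (hu : τ u ∈ U) x, f (x * u) = ψ ⟨τ u, hu⟩ * f x) →
    covolume ((Cj (Γ.map τ) (τ h)).subgroupOf U) U ν * ‖∑ a, e a * f (w a * h)‖ₑ ^ 2 ≤ ENNReal.ofReal (Λ ^ 2) * wnrm U τ ν Γ f

end whittaker

variable [MeasurableSpace G] [TopologicalSpace G]

/-- **The inequality** at the point `(h, x)`: for orthonormal `F_1, …, F_M` in `L²(Γ \ G)` which are eigenfunctions of the convolution operators of `φ` and `w ρ` (eigenvalues `c_l`, `κ_l`) and of the operator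
`F ↦ ∑_a e_a F(w_a y)` (eigenvalues `t_l`): `vol(h⁻¹ Γ h ∩ U \ U) ∑_l |c_l κ_l t_l W(F_l)|² ≤ Y vol(Γ₁ ∩ U \ U)`, `W(F)` the Whittaker coefficient of `y ↦ F(h y)` at `x` (mean value over `(h⁻¹ Γ h ∩ U) \ U`). -/
def Bound (U Γ Γ₁ : Subgroup G) [MeasurableSpace U] (μ ρ : Measure G) (ν : Measure U) (φ w : G → ℂ) (ψ : U → ℂ) (x h : G) (m : ℕ) (w' : Fin m → G) (e : Fin m → ℂ) (Y : ℝ) : Prop :=
  ∀ (D : Set G) (D₀ D₁ : Set U), IsFundamentalDomain Γ D μ → IsFundamentalDomain (Γ₁.subgroupOf U) D₀ ν → IsFundamentalDomain ((Cj Γ h).subgroupOf U) D₁ ν → ∀ (M : ℕ) (F : Fin M → G → ℂ) (c κ : Fin M → ℂ),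
    (∀ l, Aut Γ μ ρ D φ w (F l) (c l) (κ l)) → (∀ l k, ∫ x in D, star (F l x) * F k x ∂μ = if l = k then 1 else 0) → ∀ t : Fin M → ℂ, (∀ l y, ∑ a, e a * F l (w' a * y) = t l * F l y) →
    (ν D₁).toReal * ∑ l, ‖c l * κ l * t l * Wh U ν D₁ ψ (fun y => F l (h * y)) x‖ ^ 2 ≤ Y * (ν D₀).toReal

end groups

/-! ## 2. Number fields -/

section fields

variable {K L : Type} [Field K] [NumberField K] [Field L] [NumberField L] [Algebra K L] {n : Type} [Fintype n] [DecidableEq n] (ht : n → ℤ)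

theorem cong_mul {𝔫 : Ideal (𝓞 K)} {g h : Matrix n n L} (hg : ∀ r c, InO 𝔫 ((g - 1) r c)) (hk : ∀ r c, InO 𝔫 ((h - 1) r c)) (r c : n) : InO 𝔫 ((g * h - 1) r c) := by
  have int : ∀ a : Matrix n n L, (∀ r c, InO 𝔫 ((a - 1) r c)) → ∀ r c, InO (⊤ : Ideal (𝓞 K)) (a r c) := by
    intro a ha r c
    have e : a r c = (a - 1) r c + (1 : Matrix n n L) r c := by simp
    rw [e]
    refine (ha r c).top.add ?_
    by_cases h : r = c
    · subst h
      rw [Matrix.one_apply_eq]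
      exact InO.one_top
    · rw [Matrix.one_apply_ne h]
      exact InO.zero _
  have e : g * h - 1 = (g - 1) * h + (h - 1) := by
    rw [sub_mul, one_mul]
    abel
  rw [e, Matrix.add_apply, Matrix.mul_apply]
  exact (InO.sum _ _ fun k _ => (hg r k).mul (int h hk k c)).add (hk r c)

theorem cong_one (𝔫 : Ideal (𝓞 K)) (r c : n) : InO 𝔫 (((1 : Matrix n n L) - 1) r c) := by
  rw [sub_self]
  exact InO.zero _

/-- **The principal congruence group** of `A`: the elements with all entries of `g - 1` and of `g⁻¹ - 1` in `𝔫 𝓞_L`; for `𝔫 = 𝓞` this is the group `A(𝓞)` of the integral elements. -/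
def Prin (𝔫 : Ideal (𝓞 K)) (A : Subgroup (GL n L)) : Subgroup A where
  carrier := {g | (∀ r c, InO 𝔫 ((g.1.1 - 1) r c)) ∧ ∀ r c, InO 𝔫 ((g⁻¹.1.1 - 1) r c)}
  one_mem' := by
    show (∀ r c, InO 𝔫 (((1 : Matrix n n L) - 1) r c)) ∧ ∀ r c, InO 𝔫 (((1 : A)⁻¹.1.1 - 1) r c)
    rw [inv_one]
    exact ⟨cong_one 𝔫, cong_one 𝔫⟩
  mul_mem' := by
    intro g h hg hh
    show (∀ r c, InO 𝔫 (((g * h).1.1 - 1) r c)) ∧ ∀ r c, InO 𝔫 (((g * h)⁻¹.1.1 - 1) r c)
    rw [_root_.mul_inv_rev]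
    exact ⟨cong_mul hg.1 hh.1, cong_mul hh.2 hg.2⟩
  inv_mem' := by
    intro g hg
    show (∀ r c, InO 𝔫 ((g⁻¹.1.1 - 1) r c)) ∧ ∀ r c, InO 𝔫 ((g⁻¹⁻¹.1.1 - 1) r c)
    rw [inv_inv]
    exact ⟨hg.2, hg.1⟩

/-- `X ≡ 1` modulo `𝔫` at the places which divide `𝔫`: `𝔞 (X - 1) ⊆ 𝔫 𝓞_L` for some ideal `𝔞` prime to `𝔫`. -/
def Cong (𝔫 : Ideal (𝓞 K)) (X : Matrix n n L) : Prop := ∃ 𝔞 : Ideal (𝓞 K), 𝔞 ⊔ 𝔫 = ⊤ ∧ ∀ y ∈ 𝔞, ∀ i j, InO 𝔫 (algebraMap K L (y : K) * (X - 1) i j)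

variable {A : Subgroup (GL n L)} {H : Subgroup A} {R : Type} [CommRing R] [TopologicalSpace R] [Algebra ℝ R] (p : L →+* R) {J : Type} [Fintype J] {V : Type} [Fintype V]

/-- The matrices in `⋃_{a, b} h⁻¹ w_a⁻¹ Γ w_b h`. -/
def Quo (Γ : Subgroup H) {m : ℕ} (w : Fin m → H) (h : H) : Set (Matrix n n L) := {X | ∃ a b, ∃ γ ∈ Γ, X = ((w a * h)⁻¹ * γ * (w b * h)).1.1.1}

variable (K) in
/-- **The universal density theorem for groups of matrices** (compare `PM.Est`). For compact sets `Ω` and `S₀` there is a constant `C` such that for all subgroups `Γ` of finite index of `H(𝓞)`, Hecke operators `T` given by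
`w'_a`, `e'_a` with the norm at most `Λ_f` on `ℓ²(Γ \ H)`, `h ∈ H`, nondegenerate characters `ψ` given by `θ` and trivial on `h⁻¹ Γ h ∩ U`, diagonal matrices `t = diag(d)` in `G`, `x ∈ U t Ω`, test data and admissible data (the
matrices in `h⁻¹ w'_a⁻¹ Γ w'_b h`, the constant `C`, `d`, `δ`, the numbers `R_i = ∏_y (B_(i,y) ^ 2 δ_y ^ k_i) ^ e_y` and the volume `X`) the inequality of `Bound` holds with `C Λ² Λ_f² ‖φ‖₂² X` and `Γ₁ = H(𝓞)`. -/
def Est {G₀ : Subgroup (GL n R)} {G : Subgroup G₀} (U : Subgroup G) (τ : H →* G) (a : J → n × n) (σ : (L ≃ₐ[K] L) → J → J) (nr : V → R → ℝ) (e : V → ℕ) (k : J → ℕ)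
    (Adm : Set (Matrix n n L) → ℝ → (n → R) → (V → ℝ) → (J → ℝ) → ℝ → Prop) : Prop :=
  ∀ [MeasurableSpace G] [BorelSpace G] [MeasurableSpace U] [BorelSpace U] (Ω : Set (GL n R)) (S₀ : Set G), IsCompact Ω → IsCompact S₀ → ∃ C : ℝ,
    ∀ Γ : Subgroup H, Γ ≤ (Prin (⊤ : Ideal (𝓞 K)) A).subgroupOf H → Γ.relIndex ((Prin (⊤ : Ideal (𝓞 K)) A).subgroupOf H) ≠ 0 → ∀ (m : ℕ) (w' : Fin m → H) (e' : Fin m → ℂ) (Λf : ℝ)
    (h : H) (θ : J → (R →ₗ[ℝ] ℝ)), Gen U p (Cj (Γ.map τ) (τ h)) a σ θ → ∀ (t x : G) (d : n → R), t.1.1.1 = Matrix.diagonal d → (∃ u : U, ∃ ω ∈ Ω, x.1.1 = u.1.1.1 * t.1.1 * ω) →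
    ∀ (μ ρ : Measure G) [μ.IsHaarMeasure] (w : G → ℂ) (S : Set G) (Λ : ℝ) (B : J → V → ℝ) (φ : G → ℂ) (δ : V → ℝ),
    Test nr k S₀ μ ρ w S Λ B φ δ → ∀ X : ℝ, Adm (Quo Γ w' h) C d δ (fun i => ∏ y, (B i y ^ 2 * δ y ^ k i) ^ e y) X → ∀ (ν : Measure U) [ν.IsHaarMeasure],
    HeOp Γ w' e' Λf ∨ WhOp U τ ν (psi U a θ) Γ w' e' h Λf →
    Bound U (Γ.map τ) (((Prin (⊤ : Ideal (𝓞 K)) A).subgroupOf H).map τ) μ ρ ν φ w (psi U a θ) x (τ h) m (fun j => τ (w' j)) e' (C * Λ ^ 2 * Λf ^ 2 * (∫ y, ‖φ y‖ ^ 2 ∂μ) * X)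

variable (K H) in
/-- `Est` for the closure `G` of `H` in `GL(R)` (in the closure `G₀` of `A`) and its unipotent group `U`. -/
def EstCl [IsTopologicalRing R] (a : J → n × n) (σ : (L ≃ₐ[K] L) → J → J) (nr : V → R → ℝ) (e : V → ℕ) (k : J → ℕ)
    (Adm : Set (Matrix n n L) → ℝ → (n → R) → (V → ℝ) → (J → ℝ) → ℝ → Prop) : Prop :=
  Est K p ((Uni ht (Cl (GeneralLinearGroup.map p) A)).subgroupOf (Cl (em (GeneralLinearGroup.map p) A) H)) (em (em (GeneralLinearGroup.map p) A) H) a σ nr e k Adm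

end fields

/-! ## 3. Root systems -/

section roots

variable {ι M N : Type} [Fintype ι] [DecidableEq ι] [AddCommGroup M] [Module ℚ M] [AddCommGroup N] [Module ℚ N]
  {P : RootPairing ι ℚ M N} [P.IsCrystallographic] [P.IsRootSystem] (b : P.Base) {K L : Type} [Field K] [NumberField K] [Field L] [NumberField L] [Algebra K L]

/-- The minor of `X` with the columns `Φ_i` and the rows `-Φ_j` (the bijection `s` fixes the sign). -/
def Mi {i j : b.support} (s : Phi b i ≃ Phi b j) (X : Matrix (b.support ⊕ ι) (b.support ⊕ ι) L) : L :=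
  (X.submatrix (fun β : Phi b i => Sum.inr (P.reflectionPerm (s β).1 (s β).1)) fun β : Phi b i => Sum.inr β.1).det

variable {R : Type} [CommRing R] {V V' : Type} [Fintype V]

/-- **The gap**: for `w Φ_i = - Φ_j` the minor `D` of `X` with the columns `Φ_i` and the rows `-Φ_j` is zero, or `C R_i < |D| E_i E_j` (`|D|` the absolute value of the norm of `D`, `p : L → R` the embedding). -/
def Gap (p : L → R) (nr : V → R → ℝ) (e : V → ℕ) (X : Matrix (b.support ⊕ ι) (b.support ⊕ ι) L) (C : ℝ) (E Rb : b.support → ℝ) : Prop :=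
  ∀ i j, Opp b i j → ∀ s : Phi b i ≃ Phi b j, Mi b s X = 0 ∨ C * Rb i < nm nr e (p (Mi b s X)) * (E i * E j)

variable (K) in
/-- **The admissible data** (`|z|` the norm on `R`, `g = [L : K]`): `d` has the entries `a_β` at the roots and `1` at the zero weights; `δ_y` depends only on the place `pl(y)`; the matrices in `S` have the gap for the constant
`C`, `E_i = ∏_{β ∈ Φ_i} |a_β|` and the numbers `R_i`; `X = (∏_{β > 0} δ |a_β|) ^ (1/g)`, `δ = ∏_y δ_y ^ e_y`. -/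
def Adm (p : L → R) (nr : V → R → ℝ) (e : V → ℕ) (pl : V → V') (S : Set (Matrix (b.support ⊕ ι) (b.support ⊕ ι) L)) (C : ℝ) (d : b.support ⊕ ι → R) (δ : V → ℝ) (Rb : b.support → ℝ) (X : ℝ) : Prop :=
  ∃ a : ι → R, d = Sum.elim (fun _ => 1) a ∧ (∀ y y', pl y = pl y' → δ y = δ y') ∧ (∀ Y ∈ S, Gap b p nr e Y C (fun i => ∏ β ∈ Phi b i, nm nr e (a β)) Rb) ∧
    X = (∏ β with 0 < b.height β, (∏ y, δ y ^ e y) * nm nr e (a β)) ^ ((Module.finrank K L : ℝ)⁻¹)

/-- The minors of `X` with the columns `Φ_i` are in `𝔟⁻¹` (integral after multiplication with the elements of `𝔟`). -/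
def MC (𝔟 : Ideal (𝓞 K)) (i : b.support) (X : Matrix (b.support ⊕ ι) (b.support ⊕ ι) L) : Prop :=
  ∀ f : Phi b i → b.support ⊕ ι, ∀ y ∈ 𝔟, InO (⊤ : Ideal (𝓞 K)) (algebraMap K L (y : K) * (X.submatrix f fun β : Phi b i => Sum.inr β.1).det)

/-- The minors of `X` with the rows `-Φ_i` are in `𝔟⁻¹`. -/
def MR (𝔟 : Ideal (𝓞 K)) (i : b.support) (X : Matrix (b.support ⊕ ι) (b.support ⊕ ι) L) : Prop :=
  ∀ f : Phi b i → b.support ⊕ ι, ∀ y ∈ 𝔟, InO (⊤ : Ideal (𝓞 K)) (algebraMap K L (y : K) * (X.submatrix (fun β : Phi b i => Sum.inr (P.reflectionPerm β.1 β.1)) f).det)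

/-- **The lower bound of the minors** for the elements `x⁻¹ γ y`, `x, y ≡ 1` modulo `𝔫` at the places which divide `𝔫`, `γ ∈ Γ(𝔫)`: if the minors of `x⁻¹` with the rows `-Φ_j` are in `𝔟⁻¹` and the minors of `y` with the columns
`Φ_i` are in `𝔟'⁻¹` and `D ≠ 0` is the minor of `x⁻¹ γ y` with the columns `Φ_i` and the rows `-Φ_j`, then `N(𝔫) ^ (g |Φ_i|) ≤ |D| N(𝔟 𝔟') ^ g`, and for every simple root `α_l` and `T ≥ m_l(β)` for all `β`:
`N(𝔫) ^ (g P) ≤ |D| ^ T N(𝔟 𝔟') ^ (g T)`, `P` the sum of the coefficients `m_l` of the roots in `Φ_i` and in `Φ_j`. -/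
def Low (ab : L → ℝ) (A : Subgroup (GL (b.support ⊕ ι) L)) (H : Subgroup A) : Prop :=
  ∀ 𝔫 𝔟 𝔟' : Ideal (𝓞 K), 𝔫 ≠ ⊥ → 𝔟 ≠ ⊥ → 𝔟' ≠ ⊥ → ∀ x y γ : H, Cong 𝔫 x.1.1.1 → Cong 𝔫 x⁻¹.1.1.1 → Cong 𝔫 y.1.1.1 → Cong 𝔫 y⁻¹.1.1.1 → γ.1 ∈ Prin 𝔫 A → ∀ i j, Opp b i j → MR b 𝔟 j x⁻¹.1.1.1 → MC b 𝔟' i y.1.1.1 →
    ∀ s : Phi b i ≃ Phi b j, Mi b s (x⁻¹ * γ * y).1.1.1 ≠ 0 →
      ((Ideal.absNorm 𝔫 : ℝ) ^ (Phi b i).card) ^ Module.finrank K L ≤ ab (Mi b s (x⁻¹ * γ * y).1.1.1) * (Ideal.absNorm (𝔟 * 𝔟') : ℝ) ^ Module.finrank K L ∧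
      ∀ (l : b.support) (T : ℕ), (∀ β, mc b l β ≤ T) → ((Ideal.absNorm 𝔫 : ℝ) ^ S2 b i j (mc b l) (mc b l)) ^ Module.finrank K L ≤
        ab (Mi b s (x⁻¹ * γ * y).1.1.1) ^ T * ((Ideal.absNorm (𝔟 * 𝔟') : ℝ) ^ T) ^ Module.finrank K L

end roots

/-! ## 4. The statement -/

section statement

variable {ι M N : Type} [Fintype ι] [DecidableEq ι] [AddCommGroup M] [Module ℚ M] [AddCommGroup N] [Module ℚ N]
  {P : RootPairing ι ℚ M N} [P.IsCrystallographic] {b : P.Base} {K L : Type} [Field K] [NumberField K] [Field L] [NumberField L] [Algebra K L]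

/-- The split group `G(L)`, generated by the `exp(t e_i)`, `exp(t f_i)`, `t ∈ L`. -/
def GL' (b : P.Base) (L : Type) [Field L] [NumberField L] : Subgroup (GL (b.support ⊕ ι) L) := Grp RootPairing.GeckConstruction.e RootPairing.GeckConstruction.f L

/-- **The quasi-split group `G(K)`**. -/
def GQ (Q : QS b K L) : Subgroup (GL' b L) := Fix (Sum.elim (fun _ => 0) b.height) (GL' b L) fun s => Sum.map (sp Q s) (Q.act s)

/-- **The universal density theorem** for the globally generic spectrum of the quasi-split simple group `G(K)` of type `(P, Q)` over `K` (the notation is that of `PM.Hybrid`), and the lower bound of the minors for the elements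
congruent to `1` modulo `𝔫`. -/
def Universal [P.IsRootSystem] (Q : QS b K L) : Prop :=
  EstCl K (Sum.elim (fun _ => 0) b.height) (GQ Q) (mixedEmbedding L) (fun i => (Sum.inl i, Sum.inr (P.reflectionPerm i i))) (sp Q) (fun w z => mixedEmbedding.normAtPlace w z)
    (fun w : InfinitePlace L => w.mult) (fun i => (Phi b i).card) (Adm b K (mixedEmbedding L) (fun w z => mixedEmbedding.normAtPlace w z) (fun w : InfinitePlace L => w.mult) fun w => w.comap (algebraMap K L)) ∧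
  Low b (K := K) (fun z => nm (fun (w : InfinitePlace L) z => mixedEmbedding.normAtPlace w z) (fun w : InfinitePlace L => w.mult) (mixedEmbedding L z)) (GL' b L) (GQ Q)

end statement

end

end Pool.Agent.Lib.L8.PZ
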